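import Pool.Agent.W443.J5.Stms

set_option autoImplicit false

open MvPolynomial Pool.Agent.H938R2.JC Pool.Agent.W443.J5

namespace Pool.Agent.W381.J5

universe u

/-- the weight -/
def wt (w0 w1 : ℤ) (m : Fin 2 →₀ ℕ) : ℤ := w0 * (m 0 : ℤ) + w1 * (m 1 : ℤ)

theorem wt_add (w0 w1 : ℤ) (a b : Fin 2 →₀ ℕ) : wt w0 w1 (a + b) = wt w0 w1 a + wt w0 w1 b := by
  unfold wt
  simp only [Finsupp.add_apply]
  push_cast
  ring

theorem wt_e (w0 w1 : ℤ) (i j : ℕ) : wt w0 w1 (e i j) = w0 * i + w1 * j := by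
  unfold wt
  rw [e_zero, e_one]

section

variable {k : Type u} [Field k]

theorem coeff_part (w0 w1 d : ℤ) (f : MvPolynomial (Fin 2) k) (m : Fin 2 →₀ ℕ) :
    coeff m (part w0 w1 d f) = if wt w0 w1 m = d then coeff m f else 0 := by
  unfold part
  rw [coeff_sum]
  simp only [coeff_monomial]
  rw [Finset.sum_ite_eq']
  by_cases h : wt w0 w1 m = d
  · rw [if_pos h]
    by_cases h2 : coeff m f = 0
    · rw [h2]; simp
    · rw [if_pos]
      rw [Finset.mem_filter, mem_support_iff]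
      exact ⟨h2, h⟩
  · rw [if_neg h, if_neg]
    intro h2
    exact h (Finset.mem_filter.1 h2).2

/-- all weights are at most `a` -/
def Le (w0 w1 a : ℤ) (A : MvPolynomial (Fin 2) k) : Prop := ∀ m, coeff m A ≠ 0 → wt w0 w1 m ≤ a

/-- homogeneous of weight `a` -/
def Hom (w0 w1 a : ℤ) (A : MvPolynomial (Fin 2) k) : Prop := ∀ m, coeff m A ≠ 0 → wt w0 w1 m = a

theorem exists_of_coeff_mul {A B : MvPolynomial (Fin 2) k} {m : Fin 2 →₀ ℕ}
    (h : coeff m (A * B) ≠ 0) : ∃ a b, a + b = m ∧ coeff a A ≠ 0 ∧ coeff b B ≠ 0 := by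
  rw [coeff_mul] at h
  obtain ⟨x, hx, hne⟩ := Finset.exists_ne_zero_of_sum_ne_zero h
  exact ⟨x.1, x.2, Finset.HasAntidiagonal.mem_antidiagonal.1 hx, left_ne_zero_of_mul hne,
    right_ne_zero_of_mul hne⟩

theorem Le.mul {w0 w1 a b : ℤ} {A B : MvPolynomial (Fin 2) k} (hA : Le w0 w1 a A)
    (hB : Le w0 w1 b B) : Le w0 w1 (a + b) (A * B) := by
  intro m hm
  obtain ⟨x, y, rfl, hx, hy⟩ := exists_of_coeff_mul hm
  rw [wt_add]
  exact add_le_add (hA x hx) (hB y hy)

theorem Hom.mul {w0 w1 a b : ℤ} {A B : MvPolynomial (Fin 2) k} (hA : Hom w0 w1 a A)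
    (hB : Hom w0 w1 b B) : Hom w0 w1 (a + b) (A * B) := by
  intro m hm
  obtain ⟨x, y, rfl, hx, hy⟩ := exists_of_coeff_mul hm
  rw [wt_add, hA x hx, hB y hy]

theorem coeff_one_ne {m : Fin 2 →₀ ℕ} (h : coeff m (1 : MvPolynomial (Fin 2) k) ≠ 0) : m = 0 := by
  rw [coeff_one] at h
  by_contra hne
  exact h (if_neg (Ne.symm hne))

theorem Le.pow {w0 w1 a : ℤ} {A : MvPolynomial (Fin 2) k} (hA : Le w0 w1 a A) (n : ℕ) :
    Le w0 w1 (n * a) (A ^ n) := by
  induction n with
  | zero =>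
    intro m hm
    rw [pow_zero] at hm
    rw [coeff_one_ne hm]
    simp [wt]
  | succ n ih =>
    have h := ih.mul hA
    rw [pow_succ]
    have h2 : ((n + 1 : ℕ) : ℤ) * a = n * a + a := by push_cast; ring
    rw [h2]
    exact h

theorem Hom.pow {w0 w1 a : ℤ} {A : MvPolynomial (Fin 2) k} (hA : Hom w0 w1 a A) (n : ℕ) :
    Hom w0 w1 (n * a) (A ^ n) := by
  induction n with
  | zero =>
    intro m hm
    rw [pow_zero] at hm
    rw [coeff_one_ne hm]
    simp [wt]
  | succ n ih =>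
    have h := ih.mul hA
    rw [pow_succ]
    have h2 : ((n + 1 : ℕ) : ℤ) * a = n * a + a := by push_cast; ring
    rw [h2]
    exact h

theorem part_mul {w0 w1 a b : ℤ} {A B : MvPolynomial (Fin 2) k} (hA : Le w0 w1 a A)
    (hB : Le w0 w1 b B) :
    part w0 w1 (a + b) (A * B) = part w0 w1 a A * part w0 w1 b B := by
  ext m
  rw [coeff_part, coeff_mul, coeff_mul]
  simp only [coeff_part]
  split_ifs with h
  · refine Finset.sum_congr rfl fun x hx => ?_
    rw [Finset.HasAntidiagonal.mem_antidiagonal] at hx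
    rw [← hx, wt_add] at h
    by_cases h1 : coeff x.1 A = 0
    · rw [h1]; simp
    by_cases h2 : coeff x.2 B = 0
    · rw [h2]; simp
    have h3 := hA _ h1
    have h4 := hB _ h2
    rw [if_pos (by linarith), if_pos (by linarith)]
  · symm
    refine Finset.sum_eq_zero fun x hx => ?_
    rw [Finset.HasAntidiagonal.mem_antidiagonal] at hx
    rw [← hx, wt_add] at h
    by_cases h1 : wt w0 w1 x.1 = a
    · have h2 : ¬ wt w0 w1 x.2 = b := fun h2 => h (by rw [h1, h2])
      rw [if_neg h2, mul_zero]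
    · rw [if_neg h1, zero_mul]

theorem part_one (w0 w1 : ℤ) : part w0 w1 0 (1 : MvPolynomial (Fin 2) k) = 1 := by
  ext m
  rw [coeff_part]
  split_ifs with h
  · rfl
  · by_contra hne
    have := coeff_one_ne (Ne.symm hne)
    apply h
    rw [this]
    simp [wt]

theorem part_pow {w0 w1 a : ℤ} {A : MvPolynomial (Fin 2) k} (hA : Le w0 w1 a A) (n : ℕ) :
    part w0 w1 (n * a) (A ^ n) = part w0 w1 a A ^ n := by
  induction n with
  | zero =>
    rw [pow_zero, pow_zero]
    have h2 : ((0 : ℕ) : ℤ) * a = 0 := by simp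
    rw [h2, part_one]
  | succ n ih =>
    have h2 : ((n + 1 : ℕ) : ℤ) * a = n * a + a := by push_cast; ring
    rw [h2, pow_succ, pow_succ, part_mul (hA.pow n) hA, ih]

theorem hom_part (w0 w1 a : ℤ) (A : MvPolynomial (Fin 2) k) : Hom w0 w1 a (part w0 w1 a A) := by
  intro m hm
  rw [coeff_part] at hm
  by_contra h
  exact hm (if_neg h)

theorem J_pow {f h : MvPolynomial (Fin 2) k} (hJ : J f h = 0) (t s : ℕ) :
    J (f ^ t) (h ^ s) = 0 := by
  unfold J at hJ ⊢
  rw [Derivation.leibniz_pow, Derivation.leibniz_pow, Derivation.leibniz_pow,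
    Derivation.leibniz_pow]
  simp only [smul_eq_mul, nsmul_eq_mul]
  linear_combination ((t : MvPolynomial (Fin 2) k) * f ^ (t - 1) *
    ((s : MvPolynomial (Fin 2) k) * h ^ (s - 1))) * hJ

theorem J_part {f g : MvPolynomial (Fin 2) k} {c : k} (hJ : J f g = C c) {w0 w1 d E : ℤ}
    (hf : Le w0 w1 d f) (hg : Le w0 w1 E g) (hne : w0 + w1 ≠ d + E) :
    J (part w0 w1 d f) (part w0 w1 E g) = 0 := by
  have h : X 0 * X 1 * J (part w0 w1 d f) (part w0 w1 E g) = 0 := by
    ext m
    rw [coeff_XXJ, coeff_zero]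
    simp only [coeff_part]
    by_cases hm : wt w0 w1 m = d + E
    · have h1 := coeff_XXJ f g m
      rw [hJ, coeff_XX_C, if_neg] at h1
      · refine Eq.trans (Finset.sum_congr rfl fun x hx => ?_) h1.symm
        rw [Finset.HasAntidiagonal.mem_antidiagonal] at hx
        rw [← hx, wt_add] at hm
        by_cases h1 : coeff x.1 f = 0
        · rw [h1]; simp
        by_cases h2 : coeff x.2 g = 0
        · rw [h2]; simp
        have h3 := hf _ h1
        have h4 := hg _ h2
        rw [if_pos (by linarith), if_pos (by linarith)]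
      · rintro rfl
        rw [wt_e] at hm
        apply hne
        push_cast at hm
        linarith
    · refine Finset.sum_eq_zero fun x hx => ?_
      rw [Finset.HasAntidiagonal.mem_antidiagonal] at hx
      rw [← hx, wt_add] at hm
      by_cases h1 : wt w0 w1 x.1 = d
      · have h2 : ¬ wt w0 w1 x.2 = E := fun h2 => hm (by rw [h1, h2])
        rw [if_neg h2, mul_zero, mul_zero]
      · rw [if_neg h1, zero_mul, mul_zero]
  rcases mul_eq_zero.1 h with h1 | h1
  · exact absurd h1 (mul_ne_zero (X_ne_zero _) (X_ne_zero _))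
  · exact h1

variable [CharZero k]

/-- a component of a pair which is not good contains large powers of both variables -/
theorem axes {f g : MvPolynomial (Fin 2) k} {c : k} (hJ : J f g = C c) (hc : c ≠ 0)
    (hG : ¬ Good f g) : (∃ i, 2 ≤ i ∧ coeff (e i 0) f ≠ 0) ∧ (∃ i, 2 ≤ i ∧ coeff (e 0 i) f ≠ 0) := by
  constructor
  · by_contra hcon
    push Not at hcon
    exact hG (line hJ hc hcon)
  · by_contra hcon
    push Not at hcon
    exact hG (line' hJ hc hcon)

theorem bnd {f : MvPolynomial (Fin 2) k} {w0 w1 d : ℤ} (hf : Le w0 w1 d f)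
    (h : (∃ i, 2 ≤ i ∧ coeff (e i 0) f ≠ 0) ∧ (∃ i, 2 ≤ i ∧ coeff (e 0 i) f ≠ 0)) :
    (0 < w0 → 2 * w0 ≤ d) ∧ (0 < w1 → 2 * w1 ≤ d) := by
  obtain ⟨⟨i, hi, h1⟩, ⟨j, hj, h2⟩⟩ := h
  have h3 := hf _ h1
  have h4 := hf _ h2
  rw [wt_e] at h3 h4
  push_cast at h3 h4
  have hi' : (2 : ℤ) ≤ i := by exact_mod_cast hi
  have hj' : (2 : ℤ) ≤ j := by exact_mod_cast hj
  constructor
  · intro h0
    nlinarith
  · intro h0
    nlinarith

theorem step (hP1 : S_P1.{u}) (hP2 : S_P2.{u}) {f : MvPolynomial (Fin 2) k} {c : k} (hc : c ≠ 0)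
    {w0 w1 d : ℤ} (hw : 0 < w0 ∨ 0 < w1) (hf : Le w0 w1 d f)
    (hd : ∃ m, coeff m f ≠ 0 ∧ wt w0 w1 m = d) (N : ℕ) :
    ∀ g : MvPolynomial (Fin 2) k, J f g = C c → ¬ Good f g → Le w0 w1 N g →
    ∃ (κ : k) (R : MvPolynomial (Fin 2) k) (s : ℕ), κ ≠ 0 ∧ 2 ≤ s ∧
      part w0 w1 d f = C κ * R ^ s := by
  induction N using Nat.strong_induction_on with
  | _ N ih =>
  intro g hJ hG hgN
  have haf := axes hJ hc hG
  have hJ' : J g f = C (-c) := by rw [J_swap, hJ, C_neg]
  have hag := axes hJ' (neg_ne_zero.2 hc) (fun h => hG h.symm)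
  -- the maximal weight of g
  obtain ⟨i0, hi0, hgi0⟩ := hag.1
  obtain ⟨m0, hm0, hmax⟩ := Finset.exists_max_image g.support (fun m => wt w0 w1 m)
    ⟨e i0 0, mem_support_iff.2 hgi0⟩
  rw [mem_support_iff] at hm0
  set E : ℤ := wt w0 w1 m0 with hE
  have hgE : Le w0 w1 E g := fun m hm => hmax m (mem_support_iff.2 hm)
  have hbf := bnd hf haf
  have hbg := bnd hgE hag
  have hEN : E ≤ N := hgN m0 hm0
  have hpos : 0 < d ∧ 0 < E ∧ w0 + w1 < d + E := by
    rcases hw with hw | hw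
    · have h1 := hbf.1 hw
      have h2 := hbg.1 hw
      rcases le_or_gt w1 0 with h3 | h3
      · refine ⟨by linarith, by linarith, by linarith⟩
      · have h4 := hbf.2 h3
        have h5 := hbg.2 h3
        refine ⟨by linarith, by linarith, by linarith⟩
    · have h1 := hbf.2 hw
      have h2 := hbg.2 hw
      rcases le_or_gt w0 0 with h3 | h3
      · refine ⟨by linarith, by linarith, by linarith⟩
      · have h4 := hbf.1 h3
        have h5 := hbg.1 h3
        refine ⟨by linarith, by linarith, by linarith⟩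
  obtain ⟨hd0, hE0, hlt⟩ := hpos
  set f1 := part w0 w1 d f with hf1
  set h := part w0 w1 E g with hh
  have hf10 : f1 ≠ 0 := by
    obtain ⟨m, hm, hmd⟩ := hd
    intro h0
    have := coeff_part w0 w1 d f m
    rw [← hf1, h0, coeff_zero, if_pos hmd] at this
    exact hm this.symm
  have hh0 : h ≠ 0 := by
    intro h0
    have := coeff_part w0 w1 E g m0
    rw [← hh, h0, coeff_zero, if_pos hE.symm] at this
    exact hm0 this.symm
  have hJ1 : J f1 h = 0 := J_part hJ hf hgE (by linarith)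
  -- coprime exponents
  obtain ⟨s, t, hcop, hds, het⟩ := Nat.exists_coprime d.toNat E.toNat
  set γ := Nat.gcd d.toNat E.toNat with hγ
  have hdn : (d.toNat : ℤ) = d := Int.toNat_of_nonneg hd0.le
  have hEn : (E.toNat : ℤ) = E := Int.toNat_of_nonneg hE0.le
  have hdn0 : 0 < d.toNat := by omega
  have hEn0 : 0 < E.toNat := by omega
  have hs0 : 1 ≤ s := by
    rcases Nat.eq_zero_or_pos s with h0 | h0
    · rw [h0, zero_mul] at hds; omega
    · exact h0
  have ht0 : 1 ≤ t := by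
    rcases Nat.eq_zero_or_pos t with h0 | h0
    · rw [h0, zero_mul] at het; omega
    · exact h0
  have hDD : (t : ℤ) * d = (s : ℤ) * E := by
    rw [← hdn, ← hEn, hds, het]
    push_cast
    ring
  have hFh : Hom w0 w1 ((t : ℤ) * d) (f1 ^ t) := (hom_part w0 w1 d f).pow t
  have hGh : Hom w0 w1 ((t : ℤ) * d) (h ^ s) := by
    rw [hDD]
    exact (hom_part w0 w1 E g).pow s
  have hD0 : (t : ℤ) * d ≠ 0 := by
    have : (0 : ℤ) < t := by exact_mod_cast ht0
    positivity
  obtain ⟨c', hc'⟩ := hP1 k (f1 ^ t) (h ^ s) w0 w1 ((t : ℤ) * d) hD0 hFh hGh (J_pow hJ1 t s)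
    (pow_ne_zero _ hh0)
  have hc'0 : c' ≠ 0 := by
    rintro rfl
    rw [C_0, zero_mul] at hc'
    exact pow_ne_zero _ hf10 hc'
  rcases Nat.lt_or_ge s 2 with hs | hs
  · -- s = 1: reduce g
    have hs1 : s = 1 := by omega
    subst hs1
    rw [pow_one] at hc'
    have hEd : E = (t : ℤ) * d := by rw [hDD]; simp
    let P : Polynomial k := Polynomial.C c'⁻¹ * Polynomial.X ^ t
    have haev : Polynomial.aeval f P = C c'⁻¹ * f ^ t := by
      simp only [P, map_mul, map_pow, Polynomial.aeval_X, Polynomial.aeval_C,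
        MvPolynomial.algebraMap_eq]
    have hJ'' : J f (g - Polynomial.aeval f P) = C c := by rw [J_poly, hJ]
    have hG'' : ¬ Good f (g - Polynomial.aeval f P) := by
      intro hgood
      apply hG
      refine hgood.of_mem (Algebra.subset_adjoin (by simp)) ?_
      refine Subalgebra.sub_mem _ (Algebra.subset_adjoin (by simp)) ?_
      have hfm : f ∈ Algebra.adjoin k {f, g} := Algebra.subset_adjoin (by simp)
      rw [haev, ← MvPolynomial.algebraMap_eq]
      exact Subalgebra.mul_mem _ (Subalgebra.algebraMap_mem _ _) (Subalgebra.pow_mem _ hfm _)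
    refine ih (E - 1).toNat (by omega) _ hJ'' hG'' ?_
    intro m hm
    rw [Int.toNat_of_nonneg (by omega)]
    rw [haev, coeff_sub, coeff_C_mul] at hm
    have hle : wt w0 w1 m ≤ E := by
      by_cases h1 : coeff m g = 0
      · have h2 : coeff m (f ^ t) ≠ 0 := by
          intro h2
          rw [h1, h2, mul_zero, sub_zero] at hm
          exact hm rfl
        rw [hEd]
        exact hf.pow t m h2
      · exact hgE m h1
    have hne : wt w0 w1 m ≠ E := by
      intro hmE
      apply hm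
      have h1 : coeff m h = coeff m g := by rw [hh, coeff_part, if_pos hmE]
      have h2 : coeff m (f1 ^ t) = coeff m (f ^ t) := by
        rw [hf1, ← part_pow hf, coeff_part, if_pos (by rw [hmE, hEd])]
      rw [← h1, ← h2, hc', coeff_C_mul, inv_mul_cancel_left₀ hc'0, sub_self]
    omega
  · obtain ⟨κ, R, hκ, hR⟩ := hP2 k f1 h c' s t hc'0 hs0 hcop hf10 hc'
    exact ⟨κ, R, s, hκ, hs, hR⟩

end

theorem pow (hP1 : S_P1.{u}) (hP2 : S_P2.{u}) : Pool.Agent.W443.J5.S_POW.{u} := by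
  intro k _ _ f g c hJ hc hG w0 w1 d hw hf hd
  refine step hP1 hP2 hc hw hf hd (g.support.sup fun m => (wt w0 w1 m).toNat) g hJ hG ?_
  intro m hm
  have h1 : (wt w0 w1 m).toNat ≤ g.support.sup fun m => (wt w0 w1 m).toNat :=
    Finset.le_sup (f := fun m => (wt w0 w1 m).toNat) (mem_support_iff.2 hm)
  have h2 := Int.self_le_toNat (wt w0 w1 m)
  omega

end Pool.Agent.W381.J5
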